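import Pool.Agent.V11178.RankTwoPhi

/-!
# The rank-two groups with a two-element `s`-spanning set
-/

set_option autoImplicit false

namespace Pool.Agent.Results.MP_b53101_co.Classification

open Pool.Agent.V11178 Pool.Agent.V11178.RankTwo

/-- Let `c ≥ 2`, `k ≥ 1` and `T = ⌊(2s + 1)/c⌋`. Then `φ±(ℤ_c × ℤ_{ck}, [0, s]) = 2` if and only
if either
* `T` is odd and `2k < T²`, or `T` and `c` are odd, `c ∣ 2s + 2` and `2k = T² + 1`; or
* `T` is even, `2k ≤ T²`, and `k` is not of the form `T²/2 - j` with `0 < j < T/2` and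
  (`4 ∣ T` and `j` odd) or (`4 ∤ T` and `4 ∤ j`). -/
theorem result (s c k T : ℕ) (hc : 2 ≤ c) (hk : 1 ≤ k) (hT : T = (2 * s + 1) / c) :
    phiPM (ZMod c × ZMod (c * k)) s = 2 ↔
      (Odd T ∧ (2 * k < T ^ 2 ∨ (Odd c ∧ c ∣ 2 * s + 2 ∧ 2 * k = T ^ 2 + 1))) ∨
      (Even T ∧ 2 * k ≤ T ^ 2 ∧
        ∀ j : ℕ, 0 < j → 2 * j < T → 2 * (k + j) = T ^ 2 →
          (4 ∣ T → Even j) ∧ (¬ 4 ∣ T → 4 ∣ j)) := by
  rw [phi_eq_two_iff hc hk]
  unfold Admissible
  rw [← hT]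
  constructor
  · rintro (⟨h1, h2⟩ | ⟨h0, h2, h3⟩)
    · left
      refine ⟨Nat.odd_iff.mpr h1, ?_⟩
      rcases h2 with h2 | ⟨hco, hd, h2⟩
      · left; omega
      · by_cases h4 : 2 * k < T ^ 2
        · left; exact h4
        · right
          have h5 : T ^ 2 % 2 = 1 := by rw [Nat.pow_mod, h1]
          exact ⟨Nat.odd_iff.mpr hco, hd, by omega⟩
    · right
      refine ⟨Nat.even_iff.mpr h0, h2, ?_⟩
      intro j hj hjT hkj
      constructor
      · intro h4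
        by_contra hcon
        rw [Nat.not_even_iff] at hcon
        exact h3 ⟨j, hj, hjT, hkj, Or.inl ⟨by omega, hcon⟩⟩
      · intro h4
        by_contra hcon
        exact h3 ⟨j, hj, hjT, hkj, Or.inr ⟨by omega, hcon⟩⟩
  · rintro (⟨h1, h2⟩ | ⟨h0, h2, h3⟩)
    · left
      refine ⟨Nat.odd_iff.mp h1, ?_⟩
      rcases h2 with h2 | ⟨hco, hd, h2⟩
      · left; omega
      · right; exact ⟨Nat.odd_iff.mp hco, hd, by omega⟩
    · right
      refine ⟨Nat.even_iff.mp h0, h2, ?_⟩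
      rintro ⟨j, hj, hjT, hkj, h4 | h4⟩
      · have := (h3 j hj hjT hkj).1 (by omega)
        rw [Nat.even_iff] at this
        omega
      · exact h4.2 ((h3 j hj hjT hkj).2 (by omega))

end Pool.Agent.Results.MP_b53101_co.Classification
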